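import Pool.Agent.H73.EQD.Stmts

/-!
Module CONN of the project EQD: points of a page outside the disk with the same label can be
joined there.
-/

open Real Set Topology

namespace EQD

namespace Conn

/-- The parameter space: latitude, radius, last coordinate. -/
abbrev Q3 : Type := ℝ × ℝ × ℝ

/-- distance of `(r, s)` from `(1/4, σ/2)` -/
noncomputable def Dd (σ r s : ℝ) : ℝ := √((r - 1 / 4) ^ 2 + (s - σ / 2) ^ 2)

theorem joined_seg {R : Set Q3} {q q' : Q3}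
    (h : ∀ t : ℝ, 0 ≤ t → t ≤ 1 → (((1 - t) * q.1 + t * q'.1, (1 - t) * q.2.1 + t * q'.2.1,
      (1 - t) * q.2.2 + t * q'.2.2) : Q3) ∈ R) : JoinedIn R q q' := by
  apply JoinedIn.of_segment_subset
  intro z hz
  rw [segment_eq_image] at hz
  obtain ⟨t, ht, rfl⟩ := hz
  exact h t ht.1 ht.2

theorem lt_Dd_r {a σ r s : ℝ} (ha : a < 1 / 8) (hr : r ≤ 1 / 8 ∨ 3 / 8 ≤ r) : a < Dd σ r s := by
  refine lt_of_lt_of_le ha ?_
  unfold Dd
  apply Real.le_sqrt_of_sq_le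
  rcases hr with hr | hr <;> nlinarith [sq_nonneg (s - σ / 2)]

theorem lt_Dd_s {a σ r s : ℝ} (hσ : σ = 1 ∨ σ = -1) (ha : a < 1 / 8)
    (hs : 5 / 8 ≤ |s| ∨ |s| ≤ 3 / 8) : a < Dd σ r s := by
  refine lt_of_lt_of_le ha ?_
  unfold Dd
  apply Real.le_sqrt_of_sq_le
  have h1 : (1 / 8 : ℝ) ≤ |s - σ / 2| := by
    rcases hs with hs | hs
    · rcases hσ with rfl | rfl
      · rcases le_abs.mp hs with h | h
        · exact le_trans (by linarith) (le_abs_self _)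
        · exact le_trans (by linarith) (neg_le_abs _)
      · rcases le_abs.mp hs with h | h
        · exact le_trans (by linarith) (le_abs_self _)
        · exact le_trans (by linarith) (neg_le_abs _)
    · have h2 := abs_le.mp hs
      rcases hσ with rfl | rfl
      · exact le_trans (by linarith) (neg_le_abs _)
      · exact le_trans (by linarith) (le_abs_self _)
  have h2 : (1 / 8 : ℝ) ^ 2 ≤ (s - σ / 2) ^ 2 := by
    rw [← sq_abs (s - σ / 2)]
    exact pow_le_pow_left₀ (by norm_num) h1 2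
  nlinarith [sq_nonneg (r - 1 / 4)]

theorem Dd_mono {σ r r' s : ℝ} (h : (r - 1 / 4) ^ 2 ≤ (r' - 1 / 4) ^ 2) :
    Dd σ r s ≤ Dd σ r' s := by
  unfold Dd
  exact Real.sqrt_le_sqrt (by linarith)

/-- Moves outside the two disks, at a fixed latitude. -/
theorem out_joined {R : Set Q3} {α a b σ : ℝ} (hσ : σ = 1 ∨ σ = -1) (ha : a < 1 / 8)
    (hb : b < 1 / 8)
    (hR : ∀ r s : ℝ, 0 < r → r ^ 2 + s ^ 2 ≤ 1 → a < Dd σ r s → b < Dd (-σ) r s →
      ((α, r, s) : Q3) ∈ R)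
    (r s : ℝ) (hr : 0 < r) (hn : r ^ 2 + s ^ 2 ≤ 1) (h1 : a < Dd σ r s)
    (h2 : b < Dd (-σ) r s) : JoinedIn R ((α, r, s) : Q3) ((α, 1 / 2, 0) : Q3) := by
  have hσ' : -σ = 1 ∨ -σ = -1 := by
    rcases hσ with rfl | rfl
    · right; rfl
    · left; norm_num
  have farr : ∀ r s : ℝ, 0 < r → r ^ 2 + s ^ 2 ≤ 1 → (r ≤ 1 / 8 ∨ 3 / 8 ≤ r) →
      ((α, r, s) : Q3) ∈ R := fun r s h3 h4 h5 => hR r s h3 h4 (lt_Dd_r ha h5) (lt_Dd_r hb h5)
  have fars : ∀ r s : ℝ, 0 < r → r ^ 2 + s ^ 2 ≤ 1 → (5 / 8 ≤ |s| ∨ |s| ≤ 3 / 8) →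
      ((α, r, s) : Q3) ∈ R := fun r s h3 h4 h5 =>
    hR r s h3 h4 (lt_Dd_s hσ ha h5) (lt_Dd_s hσ' hb h5)
  have vert : ∀ r s : ℝ, 0 < r → r ^ 2 + s ^ 2 ≤ 1 → (r ≤ 1 / 8 ∨ 3 / 8 ≤ r) →
      JoinedIn R ((α, r, s) : Q3) ((α, 1 / 2, 0) : Q3) := by
    intro r s h3 h4 h5
    have hr1 : r ≤ 1 := by nlinarith [sq_nonneg s]
    refine JoinedIn.trans (y := ((α, r, 0) : Q3)) (joined_seg fun t ht0 ht1 => ?_)
      (joined_seg fun t ht0 ht1 => ?_)
    · have e1 : (1 - t) * α + t * α = α := by ring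
      have e2 : (1 - t) * r + t * r = r := by ring
      simp only [e1, e2]
      refine farr r _ h3 ?_ h5
      have h6 : ((1 - t) * s + t * 0) ^ 2 ≤ s ^ 2 := by
        have h7 : ((1 - t) * s + t * 0) ^ 2 = (1 - t) ^ 2 * s ^ 2 := by ring
        rw [h7]
        have h8 : (1 - t) ^ 2 ≤ 1 := by nlinarith
        nlinarith [sq_nonneg s]
      linarith
    · have e1 : (1 - t) * α + t * α = α := by ring
      have e2 : (1 - t) * (0 : ℝ) + t * 0 = 0 := by ring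
      simp only [e1, e2]
      refine fars _ _ ?_ ?_ (Or.inr (by norm_num))
      · nlinarith
      · have h6 : (1 - t) * r + t * (1 / 2) ≤ 1 := by nlinarith
        have h7 : 0 ≤ (1 - t) * r + t * (1 / 2) := by nlinarith
        nlinarith
  by_cases hs : 5 / 8 ≤ |s|
  · rcases le_total r (1 / 8) with h3 | h3
    · exact vert r s hr hn (Or.inl h3)
    · refine JoinedIn.trans (y := ((α, 1 / 8, s) : Q3)) (joined_seg fun t ht0 ht1 => ?_)
        (vert _ _ (by norm_num) (by nlinarith) (Or.inl (le_refl _)))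
      have e1 : (1 - t) * α + t * α = α := by ring
      have e2 : (1 - t) * s + t * s = s := by ring
      simp only [e1, e2]
      have h4 : (1 - t) * r + t * (1 / 8) ≤ r := by nlinarith
      have h5 : 0 < (1 - t) * r + t * (1 / 8) := by
        have : 1 / 8 ≤ (1 - t) * r + t * (1 / 8) := by nlinarith
        linarith
      exact fars _ _ h5 (by nlinarith) (Or.inl hs)
  · push Not at hs
    have hs2 : s ^ 2 ≤ 25 / 64 := by
      rw [← sq_abs]
      nlinarith [abs_nonneg s]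
    by_cases h3 : r ≤ 1 / 8 ∨ 3 / 8 ≤ r
    · exact vert r s hr hn h3
    · push Not at h3
      obtain ⟨h3, h4⟩ := h3
      rcases le_total r (1 / 4) with h5 | h5
      · refine JoinedIn.trans (y := ((α, 1 / 8, s) : Q3)) (joined_seg fun t ht0 ht1 => ?_)
          (vert _ _ (by norm_num) (by nlinarith) (Or.inl (le_refl _)))
        have e1 : (1 - t) * α + t * α = α := by ring
        have e2 : (1 - t) * s + t * s = s := by ring
        simp only [e1, e2]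
        have h6 : (1 - t) * r + t * (1 / 8) ≤ r := by nlinarith
        have h7 : 1 / 8 ≤ (1 - t) * r + t * (1 / 8) := by nlinarith
        have h8 : (r - 1 / 4) ^ 2 ≤ ((1 - t) * r + t * (1 / 8) - 1 / 4) ^ 2 := by nlinarith
        exact hR _ _ (by linarith) (by nlinarith) (lt_of_lt_of_le h1 (Dd_mono h8))
          (lt_of_lt_of_le h2 (Dd_mono h8))
      · refine JoinedIn.trans (y := ((α, 3 / 8, s) : Q3)) (joined_seg fun t ht0 ht1 => ?_)
          (vert _ _ (by norm_num) (by nlinarith) (Or.inr (le_refl _)))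
        have e1 : (1 - t) * α + t * α = α := by ring
        have e2 : (1 - t) * s + t * s = s := by ring
        simp only [e1, e2]
        have h6 : r ≤ (1 - t) * r + t * (3 / 8) := by nlinarith
        have h7 : (1 - t) * r + t * (3 / 8) ≤ 3 / 8 := by nlinarith
        have h8 : (r - 1 / 4) ^ 2 ≤ ((1 - t) * r + t * (3 / 8) - 1 / 4) ^ 2 := by nlinarith
        exact hR _ _ (by linarith) (by nlinarith) (lt_of_lt_of_le h1 (Dd_mono h8))
          (lt_of_lt_of_le h2 (Dd_mono h8))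

/-- Moving to the centre of a disk, at a fixed latitude. -/
theorem centre_joined {R : Set Q3} {α a σ : ℝ} (hσ : σ = 1 ∨ σ = -1) (ha : a < 1 / 8)
    (hR : ∀ r s : ℝ, 0 < r → r ^ 2 + s ^ 2 ≤ 1 → Dd σ r s < a → ((α, r, s) : Q3) ∈ R)
    (r s : ℝ) (h1 : Dd σ r s < a) :
    JoinedIn R ((α, r, s) : Q3) ((α, 1 / 4, σ / 2) : Q3) := by
  refine joined_seg fun t ht0 ht1 => ?_
  have e1 : (1 - t) * α + t * α = α := by ring
  simp only [e1]
  set r' := (1 - t) * r + t * (1 / 4) with hr'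
  set s' := (1 - t) * s + t * (σ / 2) with hs'
  have h2 : (r' - 1 / 4) ^ 2 + (s' - σ / 2) ^ 2 =
      (1 - t) ^ 2 * ((r - 1 / 4) ^ 2 + (s - σ / 2) ^ 2) := by
    rw [hr', hs']; ring
  have h3 : Dd σ r' s' ≤ Dd σ r s := by
    unfold Dd
    apply Real.sqrt_le_sqrt
    rw [h2]
    have h4 : (1 - t) ^ 2 ≤ 1 := by nlinarith
    have h5 : 0 ≤ (r - 1 / 4) ^ 2 + (s - σ / 2) ^ 2 := by positivity
    nlinarith
  have h4 : Dd σ r' s' < a := lt_of_le_of_lt h3 h1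
  have h5 : (r' - 1 / 4) ^ 2 + (s' - σ / 2) ^ 2 < (1 / 8) ^ 2 := by
    have h6 : Dd σ r' s' < 1 / 8 := lt_trans h4 ha
    unfold Dd at h6
    exact (Real.sqrt_lt' (by norm_num)).mp h6
  have h6 : |r' - 1 / 4| < 1 / 8 := abs_lt_of_sq_lt_sq (by nlinarith [sq_nonneg (s' - σ / 2)])
    (by norm_num)
  have h7 : |s' - σ / 2| < 1 / 8 := abs_lt_of_sq_lt_sq (by nlinarith [sq_nonneg (r' - 1 / 4)])
    (by norm_num)
  rw [abs_lt] at h6 h7
  refine hR r' s' (by linarith) ?_ h4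
  rcases hσ with rfl | rfl <;> nlinarith

/-- the basic constraints on the parameters -/
def Inn (q : Q3) : Prop := -(π / 2) < q.1 ∧ q.1 < π / 2 ∧ 0 < q.2.1 ∧ q.2.1 ^ 2 + q.2.2 ^ 2 ≤ 1

/-- region of label 0 on pages 0, 3 -/
def RA0 (M : ℝ → ℝ) (σ : ℝ) : Set Q3 :=
  {q | Inn q ∧ ((0 < q.1 ∧ M q.1 < Dd (-σ) q.2.1 q.2.2) ∨
    (q.1 ≤ 0 ∧ Dd σ q.2.1 q.2.2 < M (-q.1)))}

/-- region of label 1 on pages 0, 3 -/
def RA1 (M : ℝ → ℝ) (σ : ℝ) : Set Q3 :=
  {q | Inn q ∧ ((q.1 < 0 ∧ M (-q.1) < Dd σ q.2.1 q.2.2) ∨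
    (0 ≤ q.1 ∧ Dd (-σ) q.2.1 q.2.2 < M q.1))}

/-- region of label 0 on the other pages -/
def RB0 (M : ℝ → ℝ) (σ : ℝ) : Set Q3 :=
  {q | Inn q ∧ M (π - q.1) < Dd σ q.2.1 q.2.2 ∧
    (0 ≤ q.1 → M (2 * π - q.1) < Dd (-σ) q.2.1 q.2.2)}

/-- region of label 1 on the other pages -/
def RB1 (M : ℝ → ℝ) (σ : ℝ) : Set Q3 :=
  {q | Inn q ∧ Dd σ q.2.1 q.2.2 < M (π - q.1)}

/-- region of label 2 on the other pages -/
def RB2 (M : ℝ → ℝ) (σ : ℝ) : Set Q3 :=
  {q | Inn q ∧ 0 < q.1 ∧ Dd (-σ) q.2.1 q.2.2 < M (2 * π - q.1)}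

theorem neg_sigma {σ : ℝ} (hσ : σ = 1 ∨ σ = -1) : -σ = 1 ∨ -σ = -1 := by
  rcases hσ with rfl | rfl
  · right; rfl
  · left; norm_num

theorem Dd_centre {σ : ℝ} : Dd σ (1 / 4) (σ / 2) = 0 := by
  unfold Dd
  rw [sub_self, sub_self]
  norm_num

theorem Dd_other {σ : ℝ} (hσ : σ = 1 ∨ σ = -1) : Dd (-σ) (1 / 4) (σ / 2) = 1 := by
  unfold Dd
  rcases hσ with rfl | rfl <;> norm_num

theorem Inn_half {α : ℝ} (h1 : -(π / 2) < α) (h2 : α < π / 2) : Inn ((α, 1 / 2, 0) : Q3) :=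
  ⟨h1, h2, by norm_num, by norm_num⟩

theorem Inn_centre {α σ : ℝ} (hσ : σ = 1 ∨ σ = -1) (h1 : -(π / 2) < α) (h2 : α < π / 2) :
    Inn ((α, 1 / 4, σ / 2) : Q3) :=
  ⟨h1, h2, by norm_num, by rcases hσ with rfl | rfl <;> norm_num⟩

theorem one_lt_pi_half : (1 : ℝ) < π / 2 := by linarith [Real.pi_gt_three]

/-- Moving the latitude at a fixed point `(r, s)`. -/
theorem lat_joined {R : Set Q3} {α α' r s : ℝ}
    (hR : ∀ β : ℝ, min α α' ≤ β → β ≤ max α α' → ((β, r, s) : Q3) ∈ R) :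
    JoinedIn R ((α, r, s) : Q3) ((α', r, s) : Q3) := by
  refine joined_seg fun t ht0 ht1 => ?_
  have e1 : (1 - t) * r + t * r = r := by ring
  have e2 : (1 - t) * s + t * s = s := by ring
  simp only [e1, e2]
  refine hR _ ?_ ?_
  · rcases le_total α α' with h | h
    · rw [min_eq_left h]; nlinarith
    · rw [min_eq_right h]; nlinarith
  · rcases le_total α α' with h | h
    · rw [max_eq_right h]; nlinarith
    · rw [max_eq_left h]; nlinarith

theorem between {α α' β : ℝ} (h1 : -(π / 2) < α) (h2 : α < π / 2) (h1' : -(π / 2) < α')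
    (h2' : α' < π / 2) (h3 : min α α' ≤ β) (h4 : β ≤ max α α') :
    -(π / 2) < β ∧ β < π / 2 :=
  ⟨lt_of_lt_of_le (lt_min h1 h1') h3, lt_of_le_of_lt h4 (max_lt h2 h2')⟩

variable {M : ℝ → ℝ} (hM : Good M)
include hM

theorem half_far {σ a : ℝ} (hσ : σ = 1 ∨ σ = -1) (t : ℝ) (ha : a = M t) :
    a < Dd σ (1 / 2) 0 := by
  rw [ha]
  exact lt_Dd_s hσ (hM.lt t) (Or.inr (by norm_num))

theorem RA0_joined {σ : ℝ} (hσ : σ = 1 ∨ σ = -1) (q : Q3) (hq : q ∈ RA0 M σ) :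
    JoinedIn (RA0 M σ) q ((1, 1 / 2, 0) : Q3) := by
  have hpi := one_lt_pi_half
  have step1 : ∀ α r s : ℝ, ((α, r, s) : Q3) ∈ RA0 M σ → 0 < α →
      M α < Dd (-σ) r s → JoinedIn (RA0 M σ) ((α, r, s) : Q3) ((1, 1 / 2, 0) : Q3) := by
    intro α r s ⟨⟨h1, h2, h3, h4⟩, _⟩ hα hMα
    simp only at h1 h2 h3 h4
    refine JoinedIn.trans (y := ((α, 1 / 2, 0) : Q3)) ?_ (lat_joined fun β hb1 hb2 => ?_)
    · refine out_joined (a := -1) (b := M α) hσ (by norm_num) (hM.lt α) ?_ r s h3 h4 ?_ hMα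
      · intro r' s' h5 h6 _ h8
        exact ⟨⟨h1, h2, h5, h6⟩, Or.inl ⟨hα, h8⟩⟩
      · unfold Dd
        exact lt_of_lt_of_le (by norm_num) (Real.sqrt_nonneg _)
    · obtain ⟨h5, h6⟩ := between h1 h2 (by linarith) hpi hb1 hb2
      have h7 : 0 < β := lt_of_lt_of_le (lt_min hα one_pos) hb1
      exact ⟨Inn_half h5 h6, Or.inl ⟨h7, half_far hM (neg_sigma hσ) β rfl⟩⟩
  obtain ⟨α, r, s⟩ := q
  obtain ⟨⟨h1, h2, h3, h4⟩, h5⟩ := id hq
  simp only at h1 h2 h3 h4 h5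
  rcases h5 with ⟨hα, h5⟩ | ⟨hα, h5⟩
  · exact step1 α r s hq hα h5
  · have h6 : JoinedIn (RA0 M σ) ((α, r, s) : Q3) ((α, 1 / 4, σ / 2) : Q3) := by
      refine centre_joined (a := M (-α)) hσ (hM.lt _) ?_ r s h5
      intro r' s' h7 h8 h9
      exact ⟨⟨h1, h2, h7, h8⟩, Or.inr ⟨hα, h9⟩⟩
    have h7 : ∀ β : ℝ, -(π / 2) < β → β < π / 2 → ((β, 1 / 4, σ / 2) : Q3) ∈ RA0 M σ := by
      intro β hb1 hb2
      refine ⟨Inn_centre hσ hb1 hb2, ?_⟩
      rcases lt_or_ge 0 β with hb | hb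
      · refine Or.inl ⟨hb, ?_⟩
        simp only
        rw [Dd_other hσ]
        exact lt_trans (hM.lt _) (by norm_num)
      · refine Or.inr ⟨hb, ?_⟩
        simp only
        rw [Dd_centre]
        exact hM.pos _
    have h8 : JoinedIn (RA0 M σ) ((α, 1 / 4, σ / 2) : Q3) ((1, 1 / 4, σ / 2) : Q3) := by
      refine lat_joined fun β hb1 hb2 => ?_
      obtain ⟨h9, h10⟩ := between h1 h2 (by linarith) hpi hb1 hb2
      exact h7 β h9 h10
    refine h6.trans (h8.trans (step1 1 _ _ (h7 1 (by linarith) hpi) one_pos ?_))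
    rw [Dd_other hσ]
    exact lt_trans (hM.lt _) (by norm_num)

theorem RA1_joined {σ : ℝ} (hσ : σ = 1 ∨ σ = -1) (q : Q3) (hq : q ∈ RA1 M σ) :
    JoinedIn (RA1 M σ) q ((-1, 1 / 2, 0) : Q3) := by
  set F : Q3 → Q3 := fun q => (-q.1, q.2.1, q.2.2) with hF
  have hFc : Continuous F := by
    rw [hF]
    fun_prop
  have hFm : ∀ q : Q3, F q ∈ RA0 M (-σ) ↔ q ∈ RA1 M σ := by
    intro q
    simp only [hF, RA0, RA1, Inn, Set.mem_ofPred_eq, neg_neg]
    constructor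
    · rintro ⟨⟨h1, h2, h3⟩, h4⟩
      refine ⟨⟨by linarith, by linarith, h3⟩, ?_⟩
      rcases h4 with ⟨h4, h5⟩ | ⟨h4, h5⟩
      · exact Or.inl ⟨by linarith, h5⟩
      · exact Or.inr ⟨by linarith, h5⟩
    · rintro ⟨⟨h1, h2, h3⟩, h4⟩
      refine ⟨⟨by linarith, by linarith, h3⟩, ?_⟩
      rcases h4 with ⟨h4, h5⟩ | ⟨h4, h5⟩
      · exact Or.inl ⟨by linarith, h5⟩
      · exact Or.inr ⟨by linarith, h5⟩
  have h1 := RA0_joined hM (neg_sigma hσ) (F q) ((hFm q).mpr hq)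
  have h2 := h1.map hFc
  have h3 : F (F q) = q := by
    simp [hF]
  have h4 : F ((1, 1 / 2, 0) : Q3) = ((-1, 1 / 2, 0) : Q3) := rfl
  rw [h3, h4] at h2
  refine h2.mono ?_
  rintro _ ⟨w, hw, rfl⟩
  rw [← hFm]
  have h5 : F (F w) = w := by simp [hF]
  rw [h5]
  exact hw

theorem RB1_joined {σ : ℝ} (hσ : σ = 1 ∨ σ = -1) (q : Q3) (hq : q ∈ RB1 M σ) :
    JoinedIn (RB1 M σ) q ((1, 1 / 4, σ / 2) : Q3) := by
  have hpi := one_lt_pi_half
  obtain ⟨α, r, s⟩ := q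
  obtain ⟨⟨h1, h2, h3, h4⟩, h5⟩ := id hq
  simp only at h1 h2 h3 h4 h5
  have h6 : JoinedIn (RB1 M σ) ((α, r, s) : Q3) ((α, 1 / 4, σ / 2) : Q3) := by
    refine centre_joined (a := M (π - α)) hσ (hM.lt _) ?_ r s h5
    intro r' s' h7 h8 h9
    exact ⟨⟨h1, h2, h7, h8⟩, h9⟩
  refine h6.trans (lat_joined fun β hb1 hb2 => ?_)
  obtain ⟨h9, h10⟩ := between h1 h2 (by linarith) hpi hb1 hb2
  refine ⟨Inn_centre hσ h9 h10, ?_⟩
  simp only
  rw [Dd_centre]
  exact hM.pos _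

theorem RB2_joined {σ : ℝ} (hσ : σ = 1 ∨ σ = -1) (q : Q3) (hq : q ∈ RB2 M σ) :
    JoinedIn (RB2 M σ) q ((1, 1 / 4, (-σ) / 2) : Q3) := by
  have hpi := one_lt_pi_half
  obtain ⟨α, r, s⟩ := q
  obtain ⟨⟨h1, h2, h3, h4⟩, hα, h5⟩ := id hq
  simp only at h1 h2 h3 h4 h5 hα
  have h6 : JoinedIn (RB2 M σ) ((α, r, s) : Q3) ((α, 1 / 4, (-σ) / 2) : Q3) := by
    refine centre_joined (a := M (2 * π - α)) (neg_sigma hσ) (hM.lt _) ?_ r s h5
    intro r' s' h7 h8 h9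
    exact ⟨⟨h1, h2, h7, h8⟩, hα, h9⟩
  refine h6.trans (lat_joined fun β hb1 hb2 => ?_)
  obtain ⟨h9, h10⟩ := between h1 h2 (by linarith) hpi hb1 hb2
  refine ⟨Inn_centre (neg_sigma hσ) h9 h10, lt_of_lt_of_le (lt_min hα one_pos) hb1, ?_⟩
  simp only
  rw [Dd_centre]
  exact hM.pos _

theorem RB0_joined {σ : ℝ} (hσ : σ = 1 ∨ σ = -1) (q : Q3) (hq : q ∈ RB0 M σ) :
    JoinedIn (RB0 M σ) q ((1, 1 / 2, 0) : Q3) := by
  have hpi := one_lt_pi_half
  obtain ⟨α, r, s⟩ := q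
  obtain ⟨⟨h1, h2, h3, h4⟩, h5, h6⟩ := id hq
  simp only at h1 h2 h3 h4 h5 h6
  refine JoinedIn.trans (y := ((α, 1 / 2, 0) : Q3)) ?_ (lat_joined fun β hb1 hb2 => ?_)
  · rcases lt_or_ge α 0 with hα | hα
    · refine out_joined (a := M (π - α)) (b := -1) hσ (hM.lt _) (by norm_num) ?_ r s h3 h4 h5 ?_
      · intro r' s' h7 h8 h9 _
        exact ⟨⟨h1, h2, h7, h8⟩, h9, fun h => absurd h (not_le.mpr hα)⟩
      · unfold Dd
        exact lt_of_lt_of_le (by norm_num) (Real.sqrt_nonneg _)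
    · refine out_joined (a := M (π - α)) (b := M (2 * π - α)) hσ (hM.lt _) (hM.lt _) ?_ r s h3 h4
        h5 (h6 hα)
      intro r' s' h7 h8 h9 h10
      exact ⟨⟨h1, h2, h7, h8⟩, h9, fun _ => h10⟩
  · obtain ⟨h7, h8⟩ := between h1 h2 (by linarith) hpi hb1 hb2
    exact ⟨Inn_half h7 h8, half_far hM hσ _ rfl, fun _ => half_far hM (neg_sigma hσ) _ rfl⟩

omit hM

/-! ### The pages -/

/-- length of the direction vector -/
noncomputable def un (j : Fin 6) : ℝ := √(uy j ^ 2 + uz j ^ 2)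

/-- sign of the latitude -/
def ep (j : Fin 6) : ℝ := if j < 3 then 1 else -1

/-- sign of the first centre -/
def sgm (j : Fin 6) : ℝ := if j = 2 ∨ j = 5 then -1 else 1

theorem un_sq (j : Fin 6) : un j ^ 2 = uy j ^ 2 + uz j ^ 2 := by
  unfold un
  exact Real.sq_sqrt (by positivity)

theorem u_bounds (j : Fin 6) : 1 ≤ uy j ^ 2 + uz j ^ 2 ∧ uy j ^ 2 + uz j ^ 2 ≤ 2 := by
  fin_cases j <;> simp [uy, uz] <;> norm_num

theorem un_pos (j : Fin 6) : 0 < un j := by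
  unfold un
  exact Real.sqrt_pos.mpr (lt_of_lt_of_le one_pos (u_bounds j).1)

theorem ep_cases (j : Fin 6) : (j < 3 ∧ ep j = 1) ∨ (¬ j < 3 ∧ ep j = -1) := by
  unfold ep
  by_cases h : j < 3
  · left; exact ⟨h, if_pos h⟩
  · right; exact ⟨h, if_neg h⟩

theorem ep_sq (j : Fin 6) : ep j ^ 2 = 1 := by
  rcases ep_cases j with ⟨_, h⟩ | ⟨_, h⟩ <;> rw [h] <;> norm_num

theorem sgm_cases (j : Fin 6) : sgm j = 1 ∨ sgm j = -1 := by
  unfold sgm
  split_ifs
  · right; rfl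
  · left; rfl

/-- the parametrisation of page `j` -/
noncomputable def Psi (j : Fin 6) (q : Q3) : E4 :=
  !₂[ep j * (q.2.1 * sin q.1), q.2.1 * cos q.1 * (uy j / un j), q.2.1 * cos q.1 * (uz j / un j),
    q.2.2]

@[simp] theorem Psi_0 (j : Fin 6) (q : Q3) : Psi j q 0 = ep j * (q.2.1 * sin q.1) := rfl
@[simp] theorem Psi_1 (j : Fin 6) (q : Q3) : Psi j q 1 = q.2.1 * cos q.1 * (uy j / un j) := rfl
@[simp] theorem Psi_2 (j : Fin 6) (q : Q3) : Psi j q 2 = q.2.1 * cos q.1 * (uz j / un j) := rfl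
@[simp] theorem Psi_3 (j : Fin 6) (q : Q3) : Psi j q 3 = q.2.2 := rfl

theorem Psi_cont (j : Fin 6) : Continuous (Psi j) := by
  unfold Psi
  refine (PiLp.continuous_toLp 2 (fun _ : Fin 4 => ℝ)).comp ?_
  refine continuous_pi fun i => ?_
  fin_cases i
  · show Continuous fun q : Q3 => ep j * (q.2.1 * sin q.1)
    fun_prop
  · show Continuous fun q : Q3 => q.2.1 * cos q.1 * (uy j / un j)
    fun_prop
  · show Continuous fun q : Q3 => q.2.1 * cos q.1 * (uz j / un j)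
    fun_prop
  · show Continuous fun q : Q3 => q.2.2
    fun_prop

theorem Psi_sq (j : Fin 6) (q : Q3) :
    Psi j q 0 ^ 2 + Psi j q 1 ^ 2 + Psi j q 2 ^ 2 = q.2.1 ^ 2 := by
  have h1 := un_sq j
  have h2 := un_pos j
  have h3 : (uy j / un j) ^ 2 + (uz j / un j) ^ 2 = 1 := by
    rw [div_pow, div_pow, ← add_div, ← h1, div_self (by positivity)]
  have h4 := ep_sq j
  have h5 := Real.sin_sq_add_cos_sq q.1
  rw [Psi_0, Psi_1, Psi_2]
  have h6 : (ep j * (q.2.1 * sin q.1)) ^ 2 + (q.2.1 * cos q.1 * (uy j / un j)) ^ 2 +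
      (q.2.1 * cos q.1 * (uz j / un j)) ^ 2 = ep j ^ 2 * (q.2.1 ^ 2 * sin q.1 ^ 2) +
      q.2.1 ^ 2 * cos q.1 ^ 2 * ((uy j / un j) ^ 2 + (uz j / un j) ^ 2) := by ring
  rw [h6, h3, h4]
  have h7 : 1 * (q.2.1 ^ 2 * sin q.1 ^ 2) + q.2.1 ^ 2 * cos q.1 ^ 2 * 1 =
    q.2.1 ^ 2 * (sin q.1 ^ 2 + cos q.1 ^ 2) := by ring
  rw [h7, h5, mul_one]

theorem Psi_rad (j : Fin 6) (q : Q3) (hq : 0 < q.2.1) : rad (Psi j q) = q.2.1 := by
  unfold rad
  rw [Psi_sq, Real.sqrt_sq hq.le]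

theorem Psi_la (j : Fin 6) (q : Q3) (hq : Inn q) : la j (Psi j q) = q.1 := by
  obtain ⟨h1, h2, h3, _⟩ := hq
  have h4 : Psi j q 0 / rad (Psi j q) = ep j * sin q.1 := by
    rw [Psi_rad j q h3, Psi_0]
    field_simp
  have h5 : arcsin (sin q.1) = q.1 := Real.arcsin_sin h1.le h2.le
  unfold la lat
  rw [h4]
  rcases ep_cases j with ⟨h, h'⟩ | ⟨h, h'⟩
  · rw [if_pos h, h', one_mul, h5]
  · rw [if_neg h, h', neg_one_mul, Real.arcsin_neg, neg_neg, h5]

theorem Psi_mp (j : Fin 6) (q : Q3) (hq : 0 < q.2.1) : mp (Psi j q) = Dd 1 q.2.1 q.2.2 := by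
  unfold mp Dd
  rw [Psi_rad j q hq, Psi_3]

theorem Psi_mm (j : Fin 6) (q : Q3) (hq : 0 < q.2.1) : mm (Psi j q) = Dd (-1) q.2.1 q.2.2 := by
  unfold mm Dd
  rw [Psi_rad j q hq, Psi_3]
  congr 2
  ring

theorem m1_eq (j : Fin 6) (p : E4) : m1 j p = Dd (sgm j) (rad p) (p 3) := by
  unfold m1 sgm Dd mm mp
  split_ifs
  · congr 2
    ring
  · rfl

theorem m2_eq (j : Fin 6) (p : E4) : m2 j p = Dd (-(sgm j)) (rad p) (p 3) := by
  unfold m2 sgm Dd mm mp
  split_ifs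
  · congr 2
    ring
  · congr 2
    ring

theorem Psi_m1 (j : Fin 6) (q : Q3) (hq : 0 < q.2.1) :
    m1 j (Psi j q) = Dd (sgm j) q.2.1 q.2.2 := by
  rw [m1_eq, Psi_rad j q hq, Psi_3]

theorem Psi_m2 (j : Fin 6) (q : Q3) (hq : 0 < q.2.1) :
    m2 j (Psi j q) = Dd (-(sgm j)) q.2.1 q.2.2 := by
  rw [m2_eq, Psi_rad j q hq, Psi_3]

theorem Psi_ell (j : Fin 6) (q : Q3) : ell j (Psi j q) = 0 := by
  unfold ell
  rw [Psi_1, Psi_2]
  ring

theorem Psi_dt (j : Fin 6) (q : Q3) (hq : Inn q) : 0 < dt j (Psi j q) := by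
  obtain ⟨h1, h2, h3, _⟩ := hq
  have h4 : dt j (Psi j q) = q.2.1 * cos q.1 * un j := by
    unfold dt
    rw [Psi_1, Psi_2]
    have h5 := un_sq j
    have h6 := un_pos j
    field_simp
    rw [h5]
  rw [h4]
  have h5 : 0 < cos q.1 := Real.cos_pos_of_mem_Ioo ⟨h1, h2⟩
  have := un_pos j
  positivity

theorem norm_sq_eq (p : E4) : ‖p‖ ^ 2 = p 0 ^ 2 + p 1 ^ 2 + p 2 ^ 2 + p 3 ^ 2 := by
  rw [EuclideanSpace.norm_sq_eq, Fin.sum_univ_four]
  simp only [Real.norm_eq_abs, sq_abs]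

theorem mem_B4 (p : E4) : p ∈ B4 ↔ p 0 ^ 2 + p 1 ^ 2 + p 2 ^ 2 + p 3 ^ 2 ≤ 1 := by
  unfold B4
  rw [mem_closedBall_zero_iff, ← norm_sq_eq]
  constructor
  · intro h
    nlinarith [norm_nonneg p]
  · intro h
    nlinarith [norm_nonneg p]

theorem Psi_B4 (j : Fin 6) (q : Q3) (hq : Inn q) : Psi j q ∈ B4 := by
  rw [mem_B4, Psi_sq, Psi_3]
  exact hq.2.2.2

/-- a point of the interior of a page lies on no other page -/
theorem page_unique (j j' : Fin 6) (p : E4) (h1 : ell j p = 0) (h2 : 0 < dt j p)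
    (h3 : p ∈ Pg j') : j' = j := by
  obtain ⟨h3, h4⟩ := h3
  revert h1 h2 h3 h4
  unfold ell dt
  fin_cases j <;> fin_cases j' <;> simp [uy, uz] <;> intros <;> linarith

/-- the condition in the interior of a page -/
theorem mem_Dtop_iff (M : ℝ → ℝ) (j : Fin 6) (p : E4) (h1 : ell j p = 0) (h2 : 0 < dt j p)
    (h3 : 0 < rad p) : p ∈ Dtop M ↔ Cond M j p := by
  constructor
  · rintro (h | ⟨j', h4, h5⟩)
    · exact absurd h h3.ne'
    · rw [page_unique j j' p h1 h2 h4] at h5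
      exact h5
  · intro h
    exact Or.inr ⟨j, ⟨h1, h2.le⟩, h⟩

/-- the region of label `l` -/
def Reg (M : ℝ → ℝ) (j : Fin 6) (l : Fin 3) : Set Q3 :=
  if j = 0 ∨ j = 3 then (if l = 0 then RA0 M (sgm j) else RA1 M (sgm j))
  else (if l = 0 then RB0 M (sgm j) else if l = 1 then RB1 M (sgm j) else RB2 M (sgm j))

theorem Reg_joined {M : ℝ → ℝ} (hM : Good M) (j : Fin 6) (l : Fin 3) :
    ∃ b : Q3, ∀ q ∈ Reg M j l, JoinedIn (Reg M j l) q b := by
  unfold Reg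
  split_ifs
  · exact ⟨_, RA0_joined hM (sgm_cases j)⟩
  · exact ⟨_, RA1_joined hM (sgm_cases j)⟩
  · exact ⟨_, RB0_joined hM (sgm_cases j)⟩
  · exact ⟨_, RB1_joined hM (sgm_cases j)⟩
  · exact ⟨_, RB2_joined hM (sgm_cases j)⟩

theorem Reg_Inn {M : ℝ → ℝ} (j : Fin 6) (l : Fin 3) (q : Q3) (hq : q ∈ Reg M j l) : Inn q := by
  unfold Reg at hq
  split_ifs at hq <;> exact hq.1

theorem small_big {M : ℝ → ℝ} (hM : Good M) {σ r s : ℝ} (hσ : σ = 1 ∨ σ = -1) (t t' : ℝ)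
    (h : Dd σ r s < M t) : M t' < Dd (-σ) r s := by
  have h1 := hM.lt t
  have h2 := hM.lt t'
  have h3 : (r - 1 / 4) ^ 2 + (s - σ / 2) ^ 2 < (1 / 8) ^ 2 := by
    have h4 : Dd σ r s < 1 / 8 := lt_trans h h1
    unfold Dd at h4
    exact (Real.sqrt_lt' (by norm_num)).mp h4
  have h4 : |s - σ / 2| < 1 / 8 := abs_lt_of_sq_lt_sq (by nlinarith [sq_nonneg (r - 1 / 4)])
    (by norm_num)
  rw [abs_lt] at h4
  refine lt_trans h2 ?_
  unfold Dd
  apply Real.lt_sqrt_of_sq_lt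
  rcases hσ with rfl | rfl <;> nlinarith [sq_nonneg (r - 1 / 4)]

theorem Reg_not_Cond {M : ℝ → ℝ} (hM : Good M) (j : Fin 6) (l : Fin 3) (q : Q3)
    (hq : q ∈ Reg M j l) : ¬ Cond M j (Psi j q) := by
  have hI := Reg_Inn j l q hq
  have hr := hI.2.2.1
  unfold Cond
  rw [Psi_la j q hI, Psi_m1 j q hr, Psi_m2 j q hr]
  unfold Reg at hq
  by_cases hj : j = 0 ∨ j = 3
  · rw [if_pos hj] at hq ⊢
    by_cases hl : l = 0
    · rw [if_pos hl] at hq
      obtain ⟨_, h⟩ := hq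
      rintro (⟨h1, h2, h3⟩ | ⟨h1, h2⟩ | ⟨h1, h2⟩)
      · rcases h with ⟨h4, h5⟩ | ⟨h4, h5⟩
        · linarith
        · rw [h1, neg_zero] at h5
          linarith
      · rcases h with ⟨h4, h5⟩ | ⟨h4, h5⟩
        · linarith
        · linarith
      · rcases h with ⟨h4, h5⟩ | ⟨h4, h5⟩
        · linarith
        · linarith
    · rw [if_neg hl] at hq
      obtain ⟨_, h⟩ := hq
      rintro (⟨h1, h2, h3⟩ | ⟨h1, h2⟩ | ⟨h1, h2⟩)
      · rcases h with ⟨h4, h5⟩ | ⟨h4, h5⟩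
        · linarith
        · rw [h1] at h5
          linarith
      · rcases h with ⟨h4, h5⟩ | ⟨h4, h5⟩
        · linarith
        · linarith
      · rcases h with ⟨h4, h5⟩ | ⟨h4, h5⟩
        · linarith
        · linarith
  · rw [if_neg hj] at hq ⊢
    by_cases hl : l = 0
    · rw [if_pos hl] at hq
      obtain ⟨_, h, h'⟩ := hq
      rintro (h1 | ⟨h1, h2⟩ | ⟨h1, h2⟩)
      · linarith
      · have := h' h1.le
        linarith
      · have := h' h1.ge
        rw [h1, sub_zero] at this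
        linarith
    · rw [if_neg hl] at hq
      by_cases hl' : l = 1
      · rw [if_pos hl'] at hq
        obtain ⟨_, h⟩ := hq
        rintro (h1 | ⟨h1, h2⟩ | ⟨h1, h2⟩)
        · linarith
        · have := small_big hM (sgm_cases j) _ (2 * π - q.1) h
          linarith
        · have := small_big hM (sgm_cases j) _ (2 * π) h
          linarith
      · rw [if_neg hl'] at hq
        obtain ⟨_, h0, h⟩ := hq
        rintro (h1 | ⟨h1, h2⟩ | ⟨h1, h2⟩)
        · have := small_big hM (neg_sigma (sgm_cases j)) _ (π - q.1) h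
          rw [neg_neg] at this
          linarith
        · linarith
        · linarith

/-- the parameters of a point of a page -/
noncomputable def par (j : Fin 6) (v : E4) : Q3 := (la j v, rad v, v 3)

theorem rad_pos (j : Fin 6) (v : E4) (h2 : 0 < dt j v) : 0 < rad v := by
  unfold rad
  apply Real.sqrt_pos.mpr
  by_contra hcon
  have h3 : v 1 ^ 2 = 0 := by nlinarith [sq_nonneg (v 0), sq_nonneg (v 1), sq_nonneg (v 2)]
  have h4 : v 2 ^ 2 = 0 := by nlinarith [sq_nonneg (v 0), sq_nonneg (v 1), sq_nonneg (v 2)]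
  have h5 : v 1 = 0 := by simpa using h3
  have h6 : v 2 = 0 := by simpa using h4
  unfold dt at h2
  rw [h5, h6] at h2
  simp at h2

theorem par_spec (j : Fin 6) (v : E4) (hv : v ∈ B4) (h1 : ell j v = 0) (h2 : 0 < dt j v) :
    Inn (par j v) ∧ Psi j (par j v) = v := by
  have hr := rad_pos j v h2
  have hun := un_pos j
  have husq := un_sq j
  have hv1 : v 1 = dt j v * uy j / un j ^ 2 := by
    rw [eq_div_iff (by positivity), husq]
    unfold ell at h1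
    unfold dt
    linear_combination (-uz j) * h1
  have hv2 : v 2 = dt j v * uz j / un j ^ 2 := by
    rw [eq_div_iff (by positivity), husq]
    unfold ell at h1
    unfold dt
    linear_combination (uy j) * h1
  have hrsq : rad v ^ 2 = v 0 ^ 2 + (dt j v / un j) ^ 2 := by
    unfold rad
    rw [Real.sq_sqrt (by positivity), add_assoc]
    congr 1
    rw [hv1, hv2, div_pow, div_pow, div_pow, ← add_div, mul_pow, mul_pow, ← mul_add, ← husq]
    field_simp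
  have hdt : 0 < dt j v / un j := by positivity
  have habs : |v 0| < rad v := abs_lt_of_sq_lt_sq (by rw [hrsq]; nlinarith [sq_nonneg (dt j v / un j), mul_pos hdt hdt]) hr.le
  rw [abs_lt] at habs
  have hx1 : v 0 / rad v < 1 := (div_lt_one hr).mpr habs.2
  have hx2 : -1 < v 0 / rad v := by
    rw [lt_div_iff₀ hr]
    linarith [habs.1]
  have hlat1 : lat v < π / 2 := Real.arcsin_lt_pi_div_two.mpr hx1
  have hlat2 : -(π / 2) < lat v := Real.neg_pi_div_two_lt_arcsin.mpr hx2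
  have hsin : sin (lat v) = v 0 / rad v := Real.sin_arcsin hx2.le hx1.le
  have hcos : cos (lat v) = (dt j v / un j) / rad v := by
    unfold lat
    rw [Real.cos_arcsin]
    have h3 : 1 - (v 0 / rad v) ^ 2 = ((dt j v / un j) / rad v) ^ 2 := by
      rw [div_pow, div_pow (dt j v / un j)]
      rw [eq_div_iff (by positivity), sub_mul, div_mul_cancel₀ _ (by positivity), hrsq]
      ring
    rw [h3, Real.sqrt_sq (by positivity)]
  have hla : -(π / 2) < la j v ∧ la j v < π / 2 := by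
    unfold la
    split_ifs
    · exact ⟨hlat2, hlat1⟩
    · constructor <;> linarith
  have hsin' : ep j * sin (la j v) = v 0 / rad v := by
    unfold la
    rcases ep_cases j with ⟨h, h'⟩ | ⟨h, h'⟩
    · rw [if_pos h, h', one_mul, hsin]
    · rw [if_neg h, h', Real.sin_neg, hsin]
      ring
  have hcos' : cos (la j v) = (dt j v / un j) / rad v := by
    unfold la
    split_ifs
    · exact hcos
    · rw [Real.cos_neg]
      exact hcos
  refine ⟨⟨hla.1, hla.2, hr, ?_⟩, ?_⟩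
  · have h3 := (mem_B4 v).mp hv
    show rad v ^ 2 + v 3 ^ 2 ≤ 1
    unfold rad
    rw [Real.sq_sqrt (by positivity)]
    exact h3
  · ext i
    fin_cases i
    · show ep j * (rad v * sin (la j v)) = v 0
      rw [mul_left_comm, hsin']
      field_simp
    · show rad v * cos (la j v) * (uy j / un j) = v 1
      rw [hcos', hv1]
      field_simp
    · show rad v * cos (la j v) * (uz j / un j) = v 2
      rw [hcos', hv2]
      field_simp
    · rfl

theorem par_mem {M : ℝ → ℝ} (j : Fin 6) (v : E4) (hv : v ∈ B4) (h1 : ell j v = 0)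
    (h2 : 0 < dt j v) (h3 : v ∉ Dtop M) : par j v ∈ Reg M j (lab M j v) := by
  obtain ⟨hI, hP⟩ := par_spec j v hv h1 h2
  have hr := rad_pos j v h2
  rw [mem_Dtop_iff M j v h1 h2 hr] at h3
  have hm1 := m1_eq j v
  have hm2 := m2_eq j v
  unfold Cond at h3
  unfold Reg lab
  rw [hm1, hm2] at h3 ⊢
  by_cases hj : j = 0 ∨ j = 3
  · rw [if_pos hj] at h3 ⊢
    simp only [if_pos hj]
    unfold CondA at h3
    push Not at h3
    obtain ⟨h4, h5, h6⟩ := h3
    unfold labA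
    split_ifs with h7 h8 h8
    · exact ⟨hI, h7⟩
    · exact absurd rfl h8
    · exact absurd h8 (by decide)
    · refine ⟨hI, ?_⟩
      push Not at h7
      obtain ⟨h7, h8⟩ := h7
      simp only [par]
      rcases lt_trichotomy (la j v) 0 with h9 | h9 | h9
      · exact Or.inl ⟨h9, lt_of_le_of_ne (h8 h9.le) (fun h => h5 h9 h.symm)⟩
      · refine Or.inr ⟨h9.ge, ?_⟩
        have h10 := h8 h9.le
        rw [h9, neg_zero] at h10
        have h11 := h4 h9 h10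
        rw [h9]
        exact h11
      · exact Or.inr ⟨h9.le, lt_of_le_of_ne (h7 h9) (h6 h9)⟩
  · rw [if_neg hj] at h3 ⊢
    simp only [if_neg hj]
    unfold CondB at h3
    push Not at h3
    obtain ⟨h4, h5, h6⟩ := h3
    unfold labB
    by_cases h7 : Dd (sgm j) (rad v) (v 3) < M (π - la j v)
    · rw [if_pos h7, if_neg (by decide), if_pos rfl]
      exact ⟨hI, h7⟩
    · rw [if_neg h7]
      by_cases h8 : 0 < la j v ∧ Dd (-(sgm j)) (rad v) (v 3) < M (2 * π - la j v)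
      · rw [if_pos h8, if_neg (by decide), if_neg (by decide)]
        exact ⟨hI, h8⟩
      · rw [if_neg h8, if_pos rfl]
        push Not at h7 h8
        refine ⟨hI, lt_of_le_of_ne h7 (fun h => h4 h.symm), ?_⟩
        simp only [par]
        intro h9
        rcases h9.lt_or_eq with h10 | h10
        · exact lt_of_le_of_ne (h8 h10) (fun h => h5 h10 h.symm)
        · have h11 := h6 h10.symm
          rw [← h10, sub_zero]
          exact h11

/-- A point of a page can be pushed into the interior of the page. -/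
theorem push (hCLO : S_CLO) (hLC : S_LC) {M : ℝ → ℝ} (hM : Good M) (j : Fin 6) (v : E4)
    (hv : v ∈ Pg j) (hvB : v ∈ B4) (hvD : v ∉ Dtop M) :
    ∃ v₁, JoinedIn (Pg j ∩ (B4 \ Dtop M)) v v₁ ∧ 0 < dt j v₁ ∧ lab M j v₁ = lab M j v := by
  obtain ⟨hub1, hub2⟩ := u_bounds j
  set w : E4 := !₂[0, uy j / 4, uz j / 4, 0] with hw
  have w0 : w 0 = 0 := rfl
  have w1 : w 1 = uy j / 4 := rfl
  have w2 : w 2 = uz j / 4 := rfl
  have w3 : w 3 = 0 := rfl
  have hwB : w ∈ B4 := by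
    rw [mem_B4, w0, w1, w2, w3]
    nlinarith
  have hopen : ∀ᶠ v' in 𝓝 v, v' ∉ Dtop M := (hCLO M hM).1.isOpen_compl.mem_nhds hvD
  have hev := hopen.and (hLC M hM j v hv hvD)
  set g : ℝ → E4 := fun t => AffineMap.lineMap v w t with hg
  have hgc : Continuous g := by
    rw [hg]
    exact AffineMap.lineMap_continuous
  have hg0 : g 0 = v := AffineMap.lineMap_apply_zero v w
  have hev' : ∀ᶠ t in 𝓝 (0 : ℝ), g t ∉ Dtop M ∧ (g t ∈ Pg j → g t ∉ Dtop M →
      lab M j (g t) = lab M j v) := by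
    have h1 : Filter.Tendsto g (𝓝 0) (𝓝 v) := by
      have := hgc.tendsto 0
      rwa [hg0] at this
    exact h1.eventually hev
  obtain ⟨ε, hε, hball⟩ := Metric.eventually_nhds_iff.mp hev'
  set t₀ : ℝ := min (ε / 2) (1 / 2) with ht₀
  have ht0 : 0 < t₀ := lt_min (by linarith) (by norm_num)
  have ht1 : t₀ ≤ 1 / 2 := min_le_right _ _
  have htε : t₀ < ε := lt_of_le_of_lt (min_le_left _ _) (by linarith)
  have hcoord : ∀ t : ℝ, ∀ i, g t i = (1 - t) * v i + t * w i := by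
    intro t i
    simp only [hg, AffineMap.lineMap_apply_module, PiLp.add_apply, PiLp.smul_apply, smul_eq_mul]
  obtain ⟨hell, hdt⟩ := hv
  have hgell : ∀ t, ell j (g t) = 0 := by
    intro t
    unfold ell at hell ⊢
    rw [hcoord, hcoord, w1, w2]
    linear_combination (1 - t) * hell
  have hgdt : ∀ t, dt j (g t) = (1 - t) * dt j v + t * ((uy j ^ 2 + uz j ^ 2) / 4) := by
    intro t
    unfold dt
    rw [hcoord, hcoord, w1, w2]
    ring
  have hgB : ∀ t, 0 ≤ t → t ≤ 1 → g t ∈ B4 := by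
    intro t h1 h2
    have hconv : Convex ℝ B4 := convex_closedBall 0 1
    have := hconv.lineMap_mem hvB hwB ⟨h1, h2⟩
    exact this
  have hgmem : ∀ t, 0 ≤ t → t ≤ t₀ → g t ∈ Pg j ∩ (B4 \ Dtop M) := by
    intro t h1 h2
    refine ⟨⟨hgell t, ?_⟩, hgB t h1 (by linarith), (hball ?_).1⟩
    · rw [hgdt]
      have h3 : 0 ≤ (1 - t) * dt j v := mul_nonneg (by linarith) hdt
      have h4 : 0 ≤ t * ((uy j ^ 2 + uz j ^ 2) / 4) := by positivity
      linarith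
    · rw [Real.dist_eq, sub_zero, abs_of_nonneg h1]
      linarith
  refine ⟨g t₀, ?_, ?_, ?_⟩
  · apply JoinedIn.of_segment_subset
    rw [segment_eq_image_lineMap]
    rintro _ ⟨s, hs, rfl⟩
    have h1 : AffineMap.lineMap v (g t₀) s = g (s * t₀) := by
      ext i
      rw [hcoord]
      simp only [AffineMap.lineMap_apply_module, PiLp.add_apply, PiLp.smul_apply, smul_eq_mul]
      rw [hcoord]
      ring
    rw [h1]
    exact hgmem _ (mul_nonneg hs.1 ht0.le) (by nlinarith [hs.2])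
  · rw [hgdt]
    have h3 : 0 ≤ (1 - t₀) * dt j v := mul_nonneg (by linarith) hdt
    have h4 : 0 < t₀ * ((uy j ^ 2 + uz j ^ 2) / 4) := by positivity
    linarith
  · have h1 := hgmem t₀ ht0.le (le_refl _)
    exact (hball (by rw [Real.dist_eq, sub_zero, abs_of_nonneg ht0.le]; exact htε)).2 h1.1 h1.2.2

end Conn

open Conn in
/-- Module CONN. -/
theorem conn (hCLO : S_CLO) (hLC : S_LC) : S_CONN := by
  intro M hM j v v' hv hvB hvD hv' hvB' hvD' hlab
  obtain ⟨v₁, hj₁, hd₁, hl₁⟩ := push hCLO hLC hM j v hv hvB hvD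
  obtain ⟨v₂, hj₂, hd₂, hl₂⟩ := push hCLO hLC hM j v' hv' hvB' hvD'
  obtain ⟨⟨he₁, _⟩, hB₁, hD₁⟩ := hj₁.target_mem
  obtain ⟨⟨he₂, _⟩, hB₂, hD₂⟩ := hj₂.target_mem
  obtain ⟨b, hb⟩ := Reg_joined hM j (lab M j v)
  have hm₁ := par_mem j v₁ hB₁ he₁ hd₁ hD₁
  have hm₂ := par_mem j v₂ hB₂ he₂ hd₂ hD₂
  rw [hl₁] at hm₁
  rw [hl₂, ← hlab] at hm₂
  have h1 : JoinedIn (Reg M j (lab M j v)) (par j v₁) (par j v₂) := (hb _ hm₁).trans (hb _ hm₂).symm
  have h2 := h1.map (Psi_cont j)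
  rw [(par_spec j v₁ hB₁ he₁ hd₁).2, (par_spec j v₂ hB₂ he₂ hd₂).2] at h2
  refine hj₁.trans (JoinedIn.trans (h2.mono ?_) hj₂.symm)
  rintro _ ⟨q, hq, rfl⟩
  have hI := Reg_Inn j _ q hq
  refine ⟨⟨Psi_ell j q, (Psi_dt j q hI).le⟩, Psi_B4 j q hI, ?_⟩
  rw [mem_Dtop_iff M j _ (Psi_ell j q) (Psi_dt j q hI) (by
    rw [Psi_rad j q hI.2.2.1]; exact hI.2.2.1)]
  exact Reg_not_Cond hM j _ q hq

end EQD
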